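import Pool.Agent.Y410.PM.Red

/-!
# The partition median problem for a fixed number of partitions

Loebl's problem: given partitions `X₁, …, X_k` of a finite set `S`, find a partition `Y` which
minimises `∑ d(X_i, Y)`, where `d(X, Y)` is the least number of operations (split a class into two,
join two classes) which turn `X` into `Y`.

If `k ≤ 2`, then `Y = X₁` is a minimiser.  We show that for every fixed `k ≥ 3` the problem is
NP-hard, and that it remains NP-hard if all partitions but one are fixed, that is, given by a
sequence which depends only on `|S|`.

For `k = 3` the ground set consists of groups of six elements `0, …, 5`; the classes of the first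
partition in a group are `034`, `15`, `2`, and those of the second are `0`, `13`, `245`.  In the third
partition `3, 4, 5` are singletons.  For every partition `Y`,
`2 c(X₁ ⊔ Y) + 2 c(X₂ ⊔ Y) + 2 i + b ≤ 3 c(Y) + g`, where `c` is the number of classes, `g` the number of
groups, `i` the number of the classes of `Y` which contain none of the elements `0, 1, 2` of the
groups, and `b` the number of the groups in which `Y` joins neither `0` and `1` nor `1` and `2`.  The
proof is by linear algebra: functions constant on the classes of `X₁ ⊔ X₂ ⊔ Y` are multiplied with
three generic functions.  So a group acts as the constraint (`p ~ q` or `q ~ r`) on the classes of the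
third partition which contain its elements `0, 1, 2`, and such constraints, each repeated many times,
express the satisfiability of a formula: the classes of `X₃ ⊔ Y` are the side of truth and the side
of falsity.  For `k = 4` a similar argument uses groups of four elements.  Finally, the partition
into singletons and the partition with one class have together the constant distance `|S| - 1` to
all partitions, which gives the step from `k` to `k + 2`.
-/

namespace Pool.Agent.Results.MP_3853ed_lc.ThreePartitions

open Pool.Agent.NPC Pool.Agent.H619R2.PM Pool.Agent.Y410.PMK

theorem dist_self' {n : ℕ} (X : Setoid (Fin n)) : dist X X = 0 := by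
  have h := dist_eq X X
  rw [sup_idem] at h
  omega

theorem dist_comm' {n : ℕ} (X Y : Setoid (Fin n)) : dist X Y = dist Y X := by
  have h1 := dist_eq X Y
  have h2 := dist_eq Y X
  rw [sup_comm] at h2
  omega

theorem dist_triangle' {n : ℕ} (X Y Z : Setoid (Fin n)) : dist X Z ≤ dist X Y + dist Y Z := by
  have h1 : Reach (dist X Y) X Y := Nat.sInf_mem (s := {k | Reach k X Y}) ⟨_, exists_reach X Y⟩
  have h2 : Reach (dist Y Z) Y Z := Nat.sInf_mem (s := {k | Reach k Y Z}) ⟨_, exists_reach Y Z⟩
  exact Nat.sInf_le (h1.trans h2)

theorem trivial_case {n : ℕ} (X : List ℕ) (Xs : List (List ℕ)) (h : Xs.length ≤ 1)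
    (Z : Setoid (Fin n)) : cost n (X :: Xs) (part n X) ≤ cost n (X :: Xs) Z := by
  rcases Xs with _ | ⟨X', _ | ⟨X'', Xs⟩⟩
  · unfold cost
    simp only [List.map_cons, List.map_nil, List.sum_cons, List.sum_nil]
    rw [dist_self']
    omega
  · unfold cost
    simp only [List.map_cons, List.map_nil, List.sum_cons, List.sum_nil]
    have h1 := dist_triangle' (part n X') Z (part n X)
    have h2 := dist_comm' Z (part n X)
    rw [dist_self']
    omega
  · simp at h

/-- **The partition median problem for `k` partitions**: for `k ≤ 2` the first partition is a
minimiser; for every fixed `k ≥ 3` the decision problem is NP-hard, also if all partitions but the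
first one are given by a sequence `A` which depends only on the size `n` of the ground set, and a
polynomial-time algorithm which outputs a minimiser for all inputs with `k` partitions, or only for
those inputs, gives `P = NP`. -/
theorem result :
    (∀ (n : ℕ) (X : List ℕ) (Xs : List (List ℕ)), Xs.length ≤ 1 →
      ∀ Z : Setoid (Fin n), cost n (X :: Xs) (part n X) ≤ cost n (X :: Xs) Z) ∧
    ∀ k : ℕ, 3 ≤ k →
      NPHardP (MedianK k) ∧
      ∃ A : ℕ → List (List ℕ), (∀ n, (A n).length + 1 = k) ∧
        NPHardP (MedianFixed A) ∧
        ((∃ F : List Bool → List Bool, PolyTime F ∧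
          ∀ (n : ℕ) (Xs : List (List ℕ)), WF n Xs → Fixed A n Xs →
            ∃ Y : List ℕ, F (bits Xs) = bits Y ∧ Y.length = n ∧
              ∀ Z : Setoid (Fin n), cost n Xs (part n Y) ≤ cost n Xs Z) →
        ∀ L : Set (List Bool), InNP L → InP L) := by
  refine ⟨fun n X Xs h Z => trivial_case X Xs h Z, fun k hk => ?_⟩
  obtain ⟨j, rfl⟩ := Nat.exists_eq_add_of_le' hk
  obtain ⟨⟨R⟩, -⟩ := exists_red j
  exact ⟨hard_k R, R.A, R.lenA, hard_fixed R, search_fixed R⟩

end Pool.Agent.Results.MP_3853ed_lc.ThreePartitions
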