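import Pool.Agent.Y403.PM.Pol

set_option autoImplicit false

/-!
# The partition median problem is NP-hard for partitions with at most two nontrivial classes

Loebl's problem: given partitions `X₁, …, X_k` of a finite set `S`, find a partition `Y` which
minimises `∑ d(X_i, Y)`, where `d(X, Y)` is the least number of operations (split a class into two,
join two classes) which turn `X` into `Y`. If every `X_i` has at most one class with more than one
element, the problem is solvable in polynomial time (known). We show that it is `NP`-hard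

* if every `X_i` has at most two classes with more than one element;
* if all classes of all `X_i` have at most two elements.

The reduction for the first part is from 3SAT. Each variable `x` owns four elements `a, b, c, d`;
many copies of the partitions with the nontrivial classes `ab`, `cd` and with the nontrivial classes
`bc`, `da`, together with the right numbers of copies of the partition into singletons and of the
partition with one class, force an optimal `Y` to have, in each group, the classes `ab|cd` or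
`bc|da`. A partition with the two nontrivial classes `{a_x, a_y}`, `{s_x, s_y}` rewards one pair of
values of the variables `x, y`, and 3SAT is the maximisation of the number of satisfied
conjunctions of two literals.
-/

namespace Pool.Agent.Results.MP_3853ed_lc.TwoNontrivialClasses

open Pool.Agent.NPC Pool.Agent.H619R2.PM Pool.Agent.Y403.PM

/-- `Xs` is a nonempty list of (label vectors of) partitions of `{0, …, n-1}`, with labels smaller
than `n`. -/
def WF (n : ℕ) (Xs : List (List ℕ)) : Prop :=
  Xs ≠ [] ∧ ∀ X ∈ Xs, X.length = n ∧ ∀ l ∈ X, l < n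

/-- Every given partition has at most `m` classes with more than one element. -/
def FewBig (m n : ℕ) (Xs : List (List ℕ)) : Prop :=
  ∀ X ∈ Xs, {A ∈ (part n X).classes | A.Nontrivial}.ncard ≤ m

/-- All classes of the given partitions have at most `m` elements. -/
def SmallClasses (m n : ℕ) (Xs : List (List ℕ)) : Prop :=
  ∀ X ∈ Xs, ∀ A ∈ (part n X).classes, A.ncard ≤ m

/-- The partition median problem, restricted to the lists `Xs` of partitions of `{0, …, n-1}` with
`R n Xs`, is `NP`-hard: every language in `NP` is reduced in polynomial time to the question whether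
there is a partition `Y` for which the sum of the distances is at most a given number, and a
polynomial-time algorithm that outputs an optimal partition for the restricted inputs puts every
language of `NP` into `P`. -/
def Hard (R : ℕ → List (List ℕ) → Prop) : Prop :=
  (∀ L : Set (List Bool), InNP L → ∃ f : List Bool → List (List ℕ) × ℕ,
    PolyTime (fun w => bits (f w)) ∧ ∀ w, ∃ n, WF n (f w).1 ∧ R n (f w).1 ∧
      (w ∈ L ↔ ∃ Y : Setoid (Fin n), cost n (f w).1 Y ≤ (f w).2)) ∧
  ((∃ F : List Bool → List Bool, PolyTime F ∧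
      ∀ (n : ℕ) (Xs : List (List ℕ)), WF n Xs → R n Xs →
        ∃ Y : List ℕ, F (bits Xs) = bits Y ∧ Y.length = n ∧
          ∀ Z : Setoid (Fin n), cost n Xs (part n Y) ≤ cost n Xs Z) →
    ∀ L : Set (List Bool), InNP L → InP L)

/-- the assignment read off from a label vector -/
def asg (Y : List ℕ) (x : ℕ) : Bool := decide (Y.getD (4 * x) 0 = Y.getD (4 * x + 1) 0)

/-- all clauses are satisfied by the assignment read off from a label vector -/
def test (p : F3 × List ℕ) : Bool :=
  p.1.all (fun c => (decide (asg p.2 c.1.2 = c.1.1) || (decide (asg p.2 c.2.1.2 = c.2.1.1) ||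
    decide (asg p.2 c.2.2.2 = c.2.2.1))))

@[fun_prop]
theorem poly_asg {α : Type} [TEnc α] {Y : α → List ℕ} {x : α → ℕ} (hY : NPC.Poly Y)
    (hx : NPC.Poly x) : NPC.Poly (fun a => asg (Y a) (x a)) := by
  unfold asg
  fun_prop

theorem poly_test : NPC.Poly test := by
  unfold test
  fun_prop

theorem test_iff (φ : F3) (Y : List ℕ) : test (φ, Y) = true ↔ ∀ c ∈ φ, Tr (asg Y) c := by
  unfold test Tr
  simp [List.all_eq_true]

theorem hard_of (R : ℕ → List (List ℕ) → Prop) (Pr : F3 → Prop) (hpr : HardPr Pr SAT3)
    (inst : F3 → List (List ℕ)) (G thr : F3 → ℕ) (hi : NPC.Poly inst) (ht : NPC.Poly thr)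
    (wf : ∀ φ, Pr φ → WF (4 * G φ) (inst φ)) (hR : ∀ φ, Pr φ → R (4 * G φ) (inst φ))
    (up : ∀ φ, Pr φ → ∀ τ : ℕ → Bool, (∀ c ∈ φ, Tr τ c) →
      ∃ Y, cost (4 * G φ) (inst φ) Y ≤ thr φ)
    (low : ∀ φ, Pr φ → ∀ (Y : Setoid (Fin (4 * G φ))) (τ : ℕ → Bool),
      (∀ x : Fin (G φ), τ x = true ↔ Y (el x 0) (el x 1)) → (∃ c ∈ φ, ¬ Tr τ c) →
        thr φ < cost (4 * G φ) (inst φ) Y) : Hard R := by
  constructor
  · intro L hL
    obtain ⟨g, hg, hg1, hg2⟩ := hpr L hL
    refine ⟨fun w => (inst (g w), thr (g w)), PC.toPolyTime (PC.comp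
      (g := fun φ => (inst φ, thr φ)) (NPC.Poly.pair hi ht) hg), fun w => ?_⟩
    refine ⟨4 * G (g w), wf _ (hg1 w), hR _ (hg1 w), ?_⟩
    rw [hg2 w]
    constructor
    · rintro ⟨τ, hτ⟩
      exact up _ (hg1 w) τ hτ
    · rintro ⟨Y, hY⟩
      classical
      refine ⟨fun x => decide (∃ h : x < G (g w), Y (el ⟨x, h⟩ 0) (el ⟨x, h⟩ 1)), ?_⟩
      by_contra hcon
      push Not at hcon
      obtain ⟨c, hc, hc1⟩ := hcon
      have := low _ (hg1 w) Y
        (fun x => decide (∃ h : x < G (g w), Y (el ⟨x, h⟩ 0) (el ⟨x, h⟩ 1)))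
        (fun x => by simp) ⟨c, hc, by
          unfold Tr
          rintro (h | h | h)
          · exact hc1.1 h
          · exact hc1.2.1 h
          · exact hc1.2.2 h⟩
      exact absurd hY (not_le.2 this)
  · rintro ⟨F, hF, hopt⟩
    have h1 : PC (bits : F3 → List Bool) (fun x : List Bool => x) (fun φ => bits (inst φ)) := by
      obtain ⟨c, p, h⟩ := hi
      exact ⟨c, p, h⟩
    have h2 : PC (bits : F3 → List Bool) (fun x : List Bool => x)
        (fun φ => F (bits (inst φ))) :=
      PC.comp (g := F) (f := fun φ => bits (inst φ)) (H642R2.TMSim.polyTime_toPC hF) h1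
    have h3 : NPC.Poly (fun φ : F3 => F (bits (inst φ))) :=
      PC.comp (g := fun x => x) (f := fun φ => F (bits (inst φ))) PC.rawIn h2
    have h4 : NPC.Poly (fun φ : F3 => unbits (List ℕ) (F (bits (inst φ)))) :=
      poly_unbits.comp h3
    refine hpr.collapse (d := fun φ => (unbits (List ℕ) (F (bits (inst φ)))).elim false
      (fun Y => test (φ, Y))) (NPC.Poly.optElim (h := fun φ Y => test (φ, Y)) h4
        (NPC.Poly.const _) poly_test) (fun φ hφ => ?_)
    obtain ⟨Y, hY, hlen, hmin⟩ := hopt _ _ (wf φ hφ) (hR φ hφ)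
    rw [hY, unbits_bits, Option.elim_some, test_iff]
    constructor
    · rintro ⟨τ, hτ⟩
      by_contra hcon
      push Not at hcon
      have hlow := low φ hφ (part (4 * G φ) Y) (asg Y) (fun x => by
        unfold asg
        rw [decide_eq_true_iff]
        rfl) hcon
      obtain ⟨Z, hZ⟩ := up φ hφ τ hτ
      have := hmin Z
      omega
    · intro h
      exact ⟨_, h⟩

/-! ### At most two nontrivial classes -/

theorem big_of_labels {n : ℕ} (L : ℕ → ℕ) (p r : ℕ)
    (h : ∀ u v, u ≠ v → L u = L v → L u = p ∨ L u = r) :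
    {A ∈ (part n ((List.range n).map L)).classes | A.Nontrivial}.ncard ≤ 2 := by
  have hsub : {A ∈ (part n ((List.range n).map L)).classes | A.Nontrivial} ⊆
      {({u : Fin n | L u = p} : Set (Fin n)), {u : Fin n | L u = r}} := by
    rintro A ⟨⟨w, rfl⟩, u, hu, v, hv, huv⟩
    have hu' : L u = L w := (part_range L u w).1 hu
    have hv' : L v = L w := (part_range L v w).1 hv
    have key : ∀ t, L w = t → {x | part n ((List.range n).map L) x w} = {u : Fin n | L u = t} := by
      intro t ht
      ext x
      simp only [Set.mem_ofPred_eq]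
      rw [part_range, ht]
    rcases h u v (fun hh => huv (Fin.ext hh)) (hu'.trans hv'.symm) with h1 | h1
    · left
      exact key p (hu'.symm.trans h1)
    · right
      exact key r (hu'.symm.trans h1)
  refine (Set.ncard_le_ncard hsub (Set.toFinite _)).trans ?_
  exact (Set.ncard_insert_le _ _).trans (by rw [Set.ncard_singleton])

theorem big_tw (n p q r s : ℕ) :
    {A ∈ (part n (tw n p q r s)).classes | A.Nontrivial}.ncard ≤ 2 := by
  refine big_of_labels (lab2 p q r s) p r ?_
  intro u v huv h
  unfold lab2 at *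
  split_ifs at * <;> omega

theorem big_id (n : ℕ) :
    {A ∈ (part n ((List.range n).map (fun u => u))).classes | A.Nontrivial}.ncard ≤ 2 :=
  big_of_labels _ 0 0 (fun _ _ huv h => absurd h huv)

theorem big_zero (n : ℕ) :
    {A ∈ (part n (List.replicate n 0)).classes | A.Nontrivial}.ncard ≤ 2 := by
  have e : List.replicate n 0 = (List.range n).map (fun _ => 0) := by simp
  rw [e]
  exact big_of_labels _ 0 0 (fun _ _ _ _ => Or.inl rfl)

/-- The partitions of the instance. -/
theorem mem_inst {φ : List Cl} (hb : Bounded3 φ) {X : List ℕ} (hX : X ∈ Y403.PM.inst φ) :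
    X = (List.range (4 * ng φ)).map (fun u => u) ∨ X = List.replicate (4 * ng φ) 0 ∨
      ∃ p q r s, p < 4 * ng φ ∧ r < 4 * ng φ ∧ X = tw (4 * ng φ) p q r s := by
  unfold Y403.PM.inst at hX
  rw [List.mem_append, List.mem_append, List.mem_append] at hX
  rcases hX with hX | hX | hX | hX
  · exact Or.inl (List.mem_replicate.1 hX).2
  · exact Or.inr (Or.inl (List.mem_replicate.1 hX).2)
  · right
    right
    rw [List.mem_flatMap] at hX
    obtain ⟨x, hx, hX⟩ := hX
    rw [List.mem_range] at hx
    unfold gp at hX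
    rw [List.mem_append] at hX
    rcases hX with hX | hX
    · exact ⟨_, _, _, _, by omega, by omega, (List.mem_replicate.1 hX).2⟩
    · exact ⟨_, _, _, _, by omega, by omega, (List.mem_replicate.1 hX).2⟩
  · right
    right
    rw [List.mem_flatMap] at hX
    obtain ⟨p, hp, hX⟩ := hX
    obtain ⟨h1, h2, h3⟩ := mem_zip hp
    obtain ⟨b1, b2, b3⟩ := hb p.1 h1
    have e : ∀ (t : Bool) (x : ℕ), x < 4 * φ.length → sl t x < 4 * ng φ := by
      intro t x hx
      unfold ng
      rcases sl_eq t x with e | e <;> omega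
    have e' : ∀ x : ℕ, x < 4 * φ.length → 4 * x < 4 * ng φ := by
      intro x hx
      unfold ng
      omega
    unfold cls at hX
    simp only [List.mem_cons, List.not_mem_nil, or_false] at hX
    rcases hX with rfl | rfl | rfl | rfl | rfl | rfl | rfl | rfl
    · exact ⟨_, _, _, _, e' _ (by omega), e _ _ (by omega), rfl⟩
    · exact ⟨_, _, _, _, e' _ (by omega), e _ _ (by omega), rfl⟩
    · exact ⟨_, _, _, _, e' _ (by omega), e _ _ (by omega), rfl⟩
    · exact ⟨_, _, _, _, e' _ (by omega), e _ _ (by omega), rfl⟩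
    · exact ⟨_, _, _, _, e' _ (by omega), e _ _ (by omega), rfl⟩
    · exact ⟨_, _, _, _, e' _ (by omega), e _ _ (by omega), rfl⟩
    · exact ⟨_, _, _, _, e' _ (by omega), e' _ (by omega), rfl⟩
    · exact ⟨_, _, _, _, e' _ (by omega), e' _ (by omega), rfl⟩

theorem fewBig_inst {φ : List Cl} (hb : Bounded3 φ) : FewBig 2 (4 * ng φ) (Y403.PM.inst φ) := by
  intro X hX
  rcases mem_inst hb hX with rfl | rfl | ⟨p, q, r, s, _, _, rfl⟩
  · exact big_id _
  · exact big_zero _
  · exact big_tw _ _ _ _ _

theorem wf_inst {φ : List Cl} (hb : Bounded3 φ) (hne : φ ≠ []) :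
    WF (4 * ng φ) (Y403.PM.inst φ) := by
  have hpos := pos_of hne
  constructor
  · unfold Y403.PM.inst mu
    rw [show 5 * (22 * φ.length + 1) = 5 * (22 * φ.length) + 4 + 1 by ring]
    simp [List.replicate_succ]
  · intro X hX
    rcases mem_inst hb hX with rfl | rfl | ⟨p, q, r, s, hp, hr, rfl⟩
    · refine ⟨by simp, fun l hl => ?_⟩
      simpa using hl
    · refine ⟨by simp, fun l hl => ?_⟩
      rw [(List.mem_replicate.1 hl).2]
      unfold ng
      omega
    · refine ⟨by simp [tw], fun l hl => ?_⟩
      simp only [tw, List.mem_map, List.mem_range] at hl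
      obtain ⟨u, hu, rfl⟩ := hl
      unfold lab2
      split_ifs <;> omega

theorem hard_two : Hard (FewBig 2) :=
  hard_of _ _ hardPr_SAT3b Y403.PM.inst ng Y403.PM.thr Y403.PM.poly_inst Y403.PM.poly_thr
    (fun _ h => wf_inst h.2.1 h.2.2) (fun _ h => fewBig_inst h.2.1)
    (fun φ h τ hτ => ⟨_, Y403.PM.upper φ h.1 h.2.1 h.2.2 τ hτ⟩)
    (fun φ h Y τ hτY hτ => Y403.PM.lower φ h.1 h.2.1 h.2.2 Y τ hτY hτ)

/-! ### Classes with at most two elements -/

theorem small_of_labels {n : ℕ} (L : ℕ → ℕ)
    (h : ∀ u v w, u ≠ v → u ≠ w → v ≠ w → L u = L v → L v = L w → False) :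
    ∀ A ∈ (part n ((List.range n).map L)).classes, A.ncard ≤ 2 := by
  rintro A ⟨x, rfl⟩
  by_contra hcon
  rw [not_le, Set.two_lt_ncard_iff (Set.toFinite _)] at hcon
  obtain ⟨u, v, w, hu, hv, hw, h1, h2, h3⟩ := hcon
  have hu' : L u = L x := (part_range L u x).1 hu
  have hv' : L v = L x := (part_range L v x).1 hv
  have hw' : L w = L x := (part_range L w x).1 hw
  exact h u v w (fun hh => h1 (Fin.ext hh)) (fun hh => h2 (Fin.ext hh))
    (fun hh => h3 (Fin.ext hh)) (hu'.trans hv'.symm) (hv'.trans hw'.symm)

theorem small_inst {φ : F3} (hd : Distinct3 φ) :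
    SmallClasses 2 (4 * gg φ) (H619R2.PM.inst φ) := by
  have hvst : ∀ t : Bool, ∀ A ∈ (part (4 * gg φ) (vst (gg φ) (fun _ => t))).classes,
      A.ncard ≤ 2 := by
    intro t
    apply small_of_labels
    intro u v w h1 h2 h3 h4 h5
    unfold lab at h4 h5
    cases t
    · simp only [Bool.false_eq_true, if_false] at h4 h5
      split_ifs at h4 h5 <;> omega
    · simp only [if_true] at h4 h5
      omega
  intro X hX
  unfold H619R2.PM.inst at hX
  rw [List.mem_append, List.mem_append, List.mem_append] at hX
  rcases hX with hX | hX | hX | hX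
  · rw [(List.mem_replicate.1 hX).2]
    exact hvst true
  · rw [(List.mem_replicate.1 hX).2]
    exact hvst false
  · rw [(List.mem_replicate.1 hX).2]
    exact small_of_labels _ (fun u v w h1 _ _ h4 _ => h1 h4)
  · rw [List.mem_flatMap] at hX
    obtain ⟨c, hc, hX⟩ := hX
    rw [List.mem_map] at hX
    obtain ⟨k, _, rfl⟩ := hX
    obtain ⟨n12, n13, n23⟩ := hd c hc
    unfold rvc rv
    apply small_of_labels
    have e1 := S_eq (xor c.1.1 k.1) c.1.2
    have e2 := S_eq (xor c.2.1.1 k.2.1) c.2.1.2
    have e3 := S_eq (xor c.2.2.1 k.2.2) c.2.2.2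
    intro u v w h1 h2 h3 h4 h5
    unfold rlab at h4 h5
    split_ifs at h4 h5 <;> omega

theorem small_ren3 (φ : F3) : Small (ren3 φ) := by
  have hlen : (vars3 φ).length = 3 * φ.length := by
    unfold vars3
    rw [List.length_flatMap]
    simp [mul_comm]
  have hg : gg (ren3 φ) = 3 * φ.length + 1 := by
    unfold gg ren3
    rw [List.length_map]
  have key : ∀ v ∈ vars3 φ, index (vars3 φ) v < gg (ren3 φ) := by
    intro v hv
    have h := getElem?_index hv
    have := (List.getElem?_eq_some_iff.1 h).1
    omega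
  intro c hc
  unfold ren3 at hc
  rw [List.mem_map] at hc
  obtain ⟨d, hd, rfl⟩ := hc
  obtain ⟨h1, h2, h3⟩ := mem_vars3 hd
  exact ⟨key _ h1, key _ h2, key _ h3⟩

theorem hardPr_small : HardPr (fun φ : F3 => Distinct3 φ ∧ Small φ) SAT3 :=
  hardPr_SAT3.trans (f := ren3 (V := ℕ)) ren3_poly
    (fun φ h => ⟨ren3_distinct h, small_ren3 φ⟩) (fun φ _ => ren3_sat φ)

theorem wf_old (φ : F3) (hs : Small φ) : WF (4 * gg φ) (H619R2.PM.inst φ) := by
  constructor
  · unfold H619R2.PM.inst al
    simp [List.replicate_succ]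
  · intro X hX
    unfold H619R2.PM.inst at hX
    rw [List.mem_append, List.mem_append, List.mem_append] at hX
    rcases hX with hX | hX | hX | hX
    · rw [List.mem_replicate] at hX
      rw [hX.2]
      refine ⟨by simp [vst], fun l hl => ?_⟩
      simp only [vst, List.mem_map, List.mem_range] at hl
      obtain ⟨u, hu, rfl⟩ := hl
      exact lab_lt _ hu
    · rw [List.mem_replicate] at hX
      rw [hX.2]
      refine ⟨by simp [vst], fun l hl => ?_⟩
      simp only [vst, List.mem_map, List.mem_range] at hl
      obtain ⟨u, hu, rfl⟩ := hl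
      exact lab_lt _ hu
    · rw [List.mem_replicate] at hX
      rw [hX.2]
      refine ⟨by simp, fun l hl => ?_⟩
      simpa using hl
    · rw [List.mem_flatMap] at hX
      obtain ⟨c, hc, hX⟩ := hX
      rw [List.mem_map] at hX
      obtain ⟨k, _, rfl⟩ := hX
      obtain ⟨b1, b2, b3⟩ := hs c hc
      refine ⟨by simp [rvc, rv], fun l hl => ?_⟩
      simp only [rvc, rv, List.mem_map, List.mem_range] at hl
      obtain ⟨u, hu, rfl⟩ := hl
      have e1 := S_eq (xor c.1.1 k.1) c.1.2
      have e2 := S_eq (xor c.2.1.1 k.2.1) c.2.1.2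
      have e3 := S_eq (xor c.2.2.1 k.2.2) c.2.2.2
      unfold rlab
      split_ifs <;> omega

theorem hard_small : Hard (SmallClasses 2) :=
  hard_of _ _ hardPr_small H619R2.PM.inst gg H619R2.PM.thr H619R2.PM.poly_inst
    H619R2.PM.poly_thr (fun φ h => wf_old φ h.2) (fun _ h => small_inst h.1)
    (fun φ h τ hτ => ⟨_, H619R2.PM.upper φ h.1 h.2 τ hτ⟩)
    (fun φ h Y τ hτY hτ => H619R2.PM.lower φ h.1 h.2 Y τ hτY hτ)

/-- **The partition median problem** (find a partition `Y` minimising `∑ d(X_i, Y)`) is `NP`-hard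

1. if every given partition `X_i` has at most two classes with more than one element (it is
   solvable in polynomial time if every `X_i` has at most one such class);
2. if all classes of the given partitions have at most two elements. -/
theorem result : Hard (FewBig 2) ∧ Hard (SmallClasses 2) := ⟨hard_two, hard_small⟩

end Pool.Agent.Results.MP_3853ed_lc.TwoNontrivialClasses
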